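import Pool.Agent.helper78.NLS.Spec

set_option autoImplicit false

open Complex Metric Set Filter Topology MeasureTheory MPS
open Pool.Agent.helper98.ILF Pool.Agent.helper16.Multibrot

noncomputable section

namespace NLS

theorem ALG_diff (u : ℂ → ℂ) (hu : Sm u) (z : ℂ) : DifferentiableAt ℝ u z :=
  (hu.differentiable (by simp)) z

theorem ALG_of (u : ℂ → ℂ) (z : ℂ) (L : ℂ →L[ℝ] ℂ) (h : HasFDerivAt u L z) :
    db u z = (L 1 + I * L I) / 2 ∧ dd u z = (L 1 - I * L I) / 2 := by
  unfold db dd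
  rw [h.fderiv]
  exact ⟨rfl, rfl⟩

theorem ALG_lin (L : ℂ →L[ℝ] ℂ) (a : ℂ) : L a = a.re * L 1 + a.im * L I := by
  conv_lhs => rw [← Complex.re_add_im a]
  rw [map_add]
  have h1 : ((a.re : ℂ)) = a.re • (1 : ℂ) := by simp
  have h2 : (a.im : ℂ) * I = a.im • I := by simp
  rw [h1, h2, map_smul, map_smul]
  simp

theorem ALG_smb (u : ℂ → ℂ) (hu : Sm u) (v : ℂ) : Sm (fun z => fderiv ℝ u z v) := by
  have h : ContDiff ℝ (⊤ : ℕ∞) (fderiv ℝ u) := hu.fderiv_right (by simp)
  exact h.clm_apply contDiff_const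

theorem ALG_db (u : ℂ → ℂ) (hu : Sm u) : Sm (db u) ∧ Sm (dd u) := by
  have h1 := ALG_smb u hu 1
  have h2 := ALG_smb u hu I
  unfold Sm at *
  constructor
  · show ContDiff ℝ (⊤ : ℕ∞) (fun z => (fderiv ℝ u z 1 + I * fderiv ℝ u z I) / 2)
    exact (h1.add (contDiff_const.mul h2)).div_const 2
  · show ContDiff ℝ (⊤ : ℕ∞) (fun z => (fderiv ℝ u z 1 - I * fderiv ℝ u z I) / 2)
    exact (h1.sub (contDiff_const.mul h2)).div_const 2

theorem ALG_sec (u : ℂ → ℂ) (hu : Sm u) (z v w : ℂ) :
    fderiv ℝ (fun y => fderiv ℝ u y v) z w = fderiv ℝ (fderiv ℝ u) z w v := by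
  have h : ContDiff ℝ (⊤ : ℕ∞) (fderiv ℝ u) := hu.fderiv_right (by simp)
  have h1 : HasFDerivAt (fderiv ℝ u) (fderiv ℝ (fderiv ℝ u) z) z :=
    ((h.differentiable (by simp)) z).hasFDerivAt
  have h2 := h1.clm_apply (hasFDerivAt_const v z)
  rw [h2.fderiv]
  simp

theorem ALG_comm (u : ℂ → ℂ) (hu : Sm u) (z : ℂ) : db (dd u) z = dd (db u) z := by
  have hs : IsSymmSndFDerivAt ℝ u z :=
    (hu.contDiffAt).isSymmSndFDerivAt (by rw [minSmoothness_of_isRCLikeNormedField]; exact ENat.LEInfty.out)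
  have hs1 : fderiv ℝ (fderiv ℝ u) z 1 I = fderiv ℝ (fderiv ℝ u) z I 1 := hs 1 I
  have d1 : HasFDerivAt (fun y => fderiv ℝ u y 1) (fderiv ℝ (fun y => fderiv ℝ u y 1) z) z :=
    (ALG_diff _ (ALG_smb u hu 1) z).hasFDerivAt
  have dI : HasFDerivAt (fun y => fderiv ℝ u y I) (fderiv ℝ (fun y => fderiv ℝ u y I) z) z :=
    (ALG_diff _ (ALG_smb u hu I) z).hasFDerivAt
  have hdd : HasFDerivAt (dd u) ((1 / 2 : ℂ) • (fderiv ℝ (fun y => fderiv ℝ u y 1) z - I • fderiv ℝ (fun y => fderiv ℝ u y I) z)) z := by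
    have := (d1.sub (dI.const_mul I)).const_mul (1 / 2 : ℂ)
    refine this.congr_of_eventuallyEq (Filter.Eventually.of_forall fun y => ?_)
    show (fderiv ℝ u y 1 - I * fderiv ℝ u y I) / 2 = 1 / 2 * (fderiv ℝ u y 1 - I * fderiv ℝ u y I)
    ring
  have hdb : HasFDerivAt (db u) ((1 / 2 : ℂ) • (fderiv ℝ (fun y => fderiv ℝ u y 1) z + I • fderiv ℝ (fun y => fderiv ℝ u y I) z)) z := by
    have := (d1.add (dI.const_mul I)).const_mul (1 / 2 : ℂ)
    refine this.congr_of_eventuallyEq (Filter.Eventually.of_forall fun y => ?_)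
    show (fderiv ℝ u y 1 + I * fderiv ℝ u y I) / 2 = 1 / 2 * (fderiv ℝ u y 1 + I * fderiv ℝ u y I)
    ring
  rw [(ALG_of _ z _ hdd).1, (ALG_of _ z _ hdb).2]
  simp only [_root_.smul_apply, _root_.sub_apply, _root_.add_apply, smul_eq_mul]
  rw [ALG_sec u hu, ALG_sec u hu, ALG_sec u hu, ALG_sec u hu, hs1]
  ring

theorem ALG_comp (u g : ℂ → ℂ) (a z : ℂ) (hu : DifferentiableAt ℝ u (g z)) (hg : HasDerivAt g a z) :
    db (fun z => u (g z)) z = db u (g z) * (starRingEnd ℂ) a ∧ dd (fun z => u (g z)) z = dd u (g z) * a := by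
  have hg' : HasFDerivAt g ((ContinuousLinearMap.toSpanSingleton ℂ a).restrictScalars ℝ) z := hg.hasFDerivAt.restrictScalars ℝ
  have h := hu.hasFDerivAt.comp z hg'
  have h' : HasFDerivAt (fun z => u (g z)) ((fderiv ℝ u (g z)).comp ((ContinuousLinearMap.toSpanSingleton ℂ a).restrictScalars ℝ)) z := h
  obtain ⟨e1, e2⟩ := ALG_of _ z _ h'
  rw [e1, e2]
  have f1 : ((fderiv ℝ u (g z)).comp ((ContinuousLinearMap.toSpanSingleton ℂ a).restrictScalars ℝ)) 1 =
      a.re * fderiv ℝ u (g z) 1 + a.im * fderiv ℝ u (g z) I := by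
    rw [← ALG_lin]
    simp
  have f2 : ((fderiv ℝ u (g z)).comp ((ContinuousLinearMap.toSpanSingleton ℂ a).restrictScalars ℝ)) I =
      -a.im * fderiv ℝ u (g z) 1 + a.re * fderiv ℝ u (g z) I := by
    have : ((fderiv ℝ u (g z)).comp ((ContinuousLinearMap.toSpanSingleton ℂ a).restrictScalars ℝ)) I =
        fderiv ℝ u (g z) (I * a) := by simp
    rw [this, ALG_lin]
    simp
  rw [f1, f2]
  unfold db dd
  have hc : (starRingEnd ℂ) a = a.re - a.im * I := by
    apply Complex.ext <;> simp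
  have ha : a = a.re + a.im * I := (Complex.re_add_im a).symm
  constructor
  · rw [hc]
    linear_combination (a.im * fderiv ℝ u (g z) I / 2) * Complex.I_sq
  · conv_rhs => rw [ha]
    linear_combination (a.im * fderiv ℝ u (g z) I / 2) * Complex.I_sq

theorem ALG_supp (R : ℝ) (u : ℂ → ℂ) (h : Sc R u) : Sc R (db u) ∧ Sc R (dd u) ∧ Continuous u ∧ HasCompactSupport u := by
  obtain ⟨hb, hd⟩ := ALG_db u h.sm
  have hcont : Continuous u := h.sm.continuous
  have hout : ∀ z, R < ‖z‖ → db u z = 0 ∧ dd u z = 0 := by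
    intro z hz
    have h0 : u =ᶠ[𝓝 z] fun _ => (0 : ℂ) := by
      have ho : IsOpen {w : ℂ | R < ‖w‖} := isOpen_lt continuous_const continuous_norm
      filter_upwards [ho.mem_nhds hz] with w hw
      exact h.supp w (le_of_lt hw)
    have h1 : HasFDerivAt u (0 : ℂ →L[ℝ] ℂ) z := (hasFDerivAt_const (0 : ℂ) z).congr_of_eventuallyEq h0
    obtain ⟨e1, e2⟩ := ALG_of u z _ h1
    rw [e1, e2]
    simp
  have hall : ∀ z, R ≤ ‖z‖ → db u z = 0 ∧ dd u z = 0 := by
    rcases le_or_gt R 0 with hR | hR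
    · intro z _
      have hz : u = fun _ => (0 : ℂ) := funext fun w => h.supp w (hR.trans (norm_nonneg w))
      have h1 : HasFDerivAt u (0 : ℂ →L[ℝ] ℂ) z := by
        rw [hz]
        exact hasFDerivAt_const (0 : ℂ) z
      obtain ⟨e1, e2⟩ := ALG_of u z _ h1
      rw [e1, e2]
      simp
    · intro z hz
      have hcl : z ∈ closure ((closedBall (0 : ℂ) R)ᶜ) := by
        rw [closure_compl, interior_closedBall (0 : ℂ) hR.ne']
        simpa using hz
      have c1 : IsClosed {w : ℂ | db u w = 0 ∧ dd u w = 0} :=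
        (isClosed_eq hb.continuous continuous_const).inter (isClosed_eq hd.continuous continuous_const)
      have hsub : (closedBall (0 : ℂ) R)ᶜ ⊆ {w : ℂ | db u w = 0 ∧ dd u w = 0} := by
        intro w hw
        have : R < ‖w‖ := by simpa using hw
        exact hout w this
      exact (closure_minimal hsub c1) hcl
  refine ⟨⟨hb, fun z hz => (hall z hz).1⟩, ⟨hd, fun z hz => (hall z hz).2⟩, hcont, ?_⟩
  refine HasCompactSupport.of_support_subset_isCompact (isCompact_closedBall (0 : ℂ) R) ?_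
  intro z hz
  by_contra hc
  have : R < ‖z‖ := by simpa using hc
  exact hz (h.supp z this.le)

theorem ALG : ALG_stmt := by
  refine ⟨?_, ?_, ?_, ?_, ?_, ?_, ?_, ?_, ?_, ?_⟩
  · intro u v hu hv
    have du := fun z => (ALG_diff u hu z).hasFDerivAt
    have dv := fun z => (ALG_diff v hv z).hasFDerivAt
    refine ⟨ContDiff.add hu hv, ContDiff.sub hu hv, ContDiff.mul hu hv, ?_, ?_, ?_⟩
    · intro z
      obtain ⟨e1, e2⟩ := ALG_of _ z _ ((du z).add (dv z))
      have e1' : db (fun z => u z + v z) z = _ := e1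
      have e2' : dd (fun z => u z + v z) z = _ := e2
      rw [e1', e2']
      unfold db dd
      simp only [_root_.add_apply]
      constructor <;> ring
    · intro z
      obtain ⟨e1, e2⟩ := ALG_of _ z _ ((du z).sub (dv z))
      have e1' : db (fun z => u z - v z) z = _ := e1
      have e2' : dd (fun z => u z - v z) z = _ := e2
      rw [e1', e2']
      unfold db dd
      simp only [_root_.sub_apply]
      constructor <;> ring
    · intro z
      obtain ⟨e1, e2⟩ := ALG_of _ z _ ((du z).mul (dv z))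
      have e1' : db (fun z => u z * v z) z = _ := e1
      have e2' : dd (fun z => u z * v z) z = _ := e2
      rw [e1', e2']
      unfold db dd
      simp only [_root_.add_apply, _root_.smul_apply, smul_eq_mul]
      constructor <;> ring
  · intro u hu
    obtain ⟨hb, hd⟩ := ALG_db u hu
    have hconj : ∀ z, HasFDerivAt (fun z => (starRingEnd ℂ) (u z))
        ((Complex.conjCLE : ℂ →L[ℝ] ℂ).comp (fderiv ℝ u z)) z := fun z =>
      (Complex.conjCLE : ℂ →L[ℝ] ℂ).hasFDerivAt.comp z (ALG_diff u hu z).hasFDerivAt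
    refine ⟨hb, hd, ALG_comm u hu, ?_, ?_⟩
    · have : ContDiff ℝ (⊤ : ℕ∞) (fun z => (Complex.conjCLE : ℂ →L[ℝ] ℂ) (u z)) :=
        (Complex.conjCLE : ℂ →L[ℝ] ℂ).contDiff.comp hu
      exact this
    · intro z
      obtain ⟨e1, e2⟩ := ALG_of _ z _ (hconj z)
      rw [e1, e2]
      unfold db dd
      simp only [ContinuousLinearMap.comp_apply, ContinuousLinearEquiv.coe_coe, Complex.conjCLE_apply]
      have h2 : (starRingEnd ℂ) (2 : ℂ) = 2 := map_ofNat (starRingEnd ℂ) 2
      constructor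
      · rw [map_div₀, map_add, map_mul, h2, Complex.conj_I]
        ring
      · rw [map_div₀, map_sub, map_mul, h2, Complex.conj_I]
        ring
  · intro n c u hu
    have hf : ∀ z, HasDerivAt (ff n c) (fd n z) z := by
      intro z
      unfold ff fd
      exact (hasDerivAt_pow n z).add_const c
    refine ⟨?_, fun z => (ALG_comp u (ff n c) _ z (ALG_diff u hu _) (hf z)).1, fun z => (ALG_comp u (ff n c) _ z (ALG_diff u hu _) (hf z)).2⟩
    have hg : ContDiff ℝ (⊤ : ℕ∞) (ff n c) := by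
      unfold ff
      exact (contDiff_id.pow n).add contDiff_const
    exact ContDiff.comp hu hg
  · intro a u hu
    have hf : ∀ z, HasDerivAt (fun z => a * z) a z := by
      intro z
      simpa using (hasDerivAt_id z).const_mul a
    refine ⟨?_, ?_, ?_⟩
    · have hg : ContDiff ℝ (⊤ : ℕ∞) (fun z : ℂ => a * z) := contDiff_const.mul contDiff_id
      exact ContDiff.comp hu hg
    · intro z
      rw [(ALG_comp u (fun z => a * z) a z (ALG_diff u hu _) (hf z)).1]
      ring
    · intro z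
      rw [(ALG_comp u (fun z => a * z) a z (ALG_diff u hu _) (hf z)).2]
      ring
  · intro a u hu
    have h1 : ∀ z, HasFDerivAt (fun z => a * u z) (a • fderiv ℝ u z) z := fun z =>
      (ALG_diff u hu z).hasFDerivAt.const_mul a
    refine ⟨contDiff_const.mul hu, ?_, ?_⟩
    · intro z
      rw [(ALG_of _ z _ (h1 z)).1]
      unfold db
      simp only [_root_.smul_apply, smul_eq_mul]
      ring
    · intro z
      rw [(ALG_of _ z _ (h1 z)).2]
      unfold dd
      simp only [_root_.smul_apply, smul_eq_mul]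
      ring
  · refine ⟨contDiff_id, ?_⟩
    intro z
    have h1 : HasFDerivAt (fun z : ℂ => z) (ContinuousLinearMap.id ℝ ℂ) z := hasFDerivAt_id z
    rw [(ALG_of _ z _ h1).1, (ALG_of _ z _ h1).2]
    simp
  · intro a
    refine ⟨contDiff_const, ?_⟩
    intro z
    have h1 : HasFDerivAt (fun _ : ℂ => a) (0 : ℂ →L[ℝ] ℂ) z := hasFDerivAt_const a z
    rw [(ALG_of _ z _ h1).1, (ALG_of _ z _ h1).2]
    simp
  · intro u z hu h0
    have hI : fderiv ℝ u z I = I • fderiv ℝ u z 1 := by
      unfold db at h0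
      rw [smul_eq_mul]
      linear_combination (-2 * I) * h0 + (fderiv ℝ u z I) * Complex.I_sq
    have hd := differentiableAt_complex_iff_differentiableAt_real.mpr ⟨hu, hI⟩
    refine ⟨hd, ?_⟩
    have h2 : HasFDerivAt u ((ContinuousLinearMap.toSpanSingleton ℂ (deriv u z)).restrictScalars ℝ) z :=
      hd.hasDerivAt.hasFDerivAt.restrictScalars ℝ
    rw [(ALG_of u z _ h2).2]
    simp only [ContinuousLinearMap.coe_restrictScalars', ContinuousLinearMap.toSpanSingleton_apply, smul_eq_mul]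
    linear_combination (deriv u z / 2) * Complex.I_sq
  · intro u z hd
    have h2 : HasFDerivAt u ((ContinuousLinearMap.toSpanSingleton ℂ (deriv u z)).restrictScalars ℝ) z :=
      hd.hasDerivAt.hasFDerivAt.restrictScalars ℝ
    rw [(ALG_of u z _ h2).1, (ALG_of u z _ h2).2]
    simp only [ContinuousLinearMap.coe_restrictScalars', ContinuousLinearMap.toSpanSingleton_apply, smul_eq_mul]
    constructor
    · linear_combination (deriv u z / 2) * Complex.I_sq
    · linear_combination (-deriv u z / 2) * Complex.I_sq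
  · exact ALG_supp

end NLS
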